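import Pool.Agent.R537.QN.SpecPoly

/-!
# Testing an upper bound on the spectral norm of a tensor is `∀ℝ`-complete

Sketch of the hardness proof.  A solvable system of constraints `x = 1`, `x + y = z`, `x y = z` has
a small solution after rescaling.  All its variables, and those of a chain `e_0 = 1/8`,
`e_{j+1} = e_j²`, are bounded by slack variables; after homogenization the equations become
integer quadratic forms `g_1, …, g_m`, and `h` is the product of the homogenizing variable and of
the last variable of the chain.  By a gap theorem the system is solvable if and only if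
`∑ g_l(x)² < h(x)²` for some `x`.  For a large constant `C` the bi-quartic form

  `2C (|x|²|y|² + ⟨x,y⟩²) - m ∑ g_l(x,y)² + m h(x,y)²`

is an explicit sum `∑_k A_k(x,y)²` of squares of symmetric bilinear forms with integer
coefficients, and it exceeds `4C` at some unit vectors `x`, `y` if and only if `∑ g_l(u)² < h(u)²`
for some `u`: with `u = (x+y)/2`, `v = (x-y)/2` one has `g(x,y) = g(u,u) - g(v,v)`, and the loss
`2C (2 - |x|²|y|² - ⟨x,y⟩²) ≥ 8C |u|²|v|²` dominates the mixed terms.  So `√(4C)` is smaller than
the spectral norm of the tensor `∑_k z_k A_k(x,y)` if and only if the system is solvable.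
-/

namespace Pool.Agent.Results.MP_50cd9e_lc.SpectralNormComplete

open Pool.Agent.NPC Pool.Agent.NPC.ER Pool.Agent.R537.QN

/-- SPECTRAL-NORM-BOUND is `∀ℝ`-complete and SPECTRAL-NORM-EXCEED is `∃ℝ`-complete, under
polynomial-time many-one reductions. -/
theorem result : ARComplete (lang SpectralNormBound) ∧ ERComplete (lang SpectralNormExceed) :=
  ⟨⟨Pool.Agent.NPC.R537QN.bound_mem, Pool.Agent.NPC.R537QN.bound_hard⟩,
    ⟨Pool.Agent.NPC.R537QN.exceed_mem, Pool.Agent.NPC.R537QN.exceed_hard⟩⟩

end Pool.Agent.Results.MP_50cd9e_lc.SpectralNormComplete
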